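import Mathlib
import Pool.Agent.Y617.MS.Main

/-!
# The `MS_0` theory of `H`-gain-graphic matroids of every rank `r ≥ 3` is not recursively enumerable

Stronger form of `InfiniteGroups` (undecidability in rank three for one infinite group). New: every
rank `r ≥ 3`; the theory is not even recursively enumerable; the sentences of the reduction that do
not fail hold in all finite matroids; and the reduction works for every class of finite matroids in
which the `H`-gain-graphic matroids of some rank `r ≥ 3` occur as restrictions, for groups `H` of
unbounded order (for instance for the finite cyclic groups).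

`Fml`, `Fml.Sat`, `Fml.IsSentence`, `Fml.code` are defined in `Pool.Agent.H761R3.MS0`, the predicate
`IsGainGraphic` in `Pool.Agent.H761R3.Gain`, and `Emb`, `Rich` in `Pool.Agent.Y617.MS`:
`Emb M M'` says that `M` is isomorphic to a restriction of `M'`.
-/

set_option autoImplicit false

namespace Pool.Agent.Results.MP_682a55_lc.AllRanksNotEnumerable

open Pool.Agent.H761R3.MS0 Pool.Agent.H761R3.Gain Pool.Agent.Y617.MS

universe u

/-- The set of the Gödel numbers of the sentences that hold in all members of the class `C`. -/
def Theory (C : (α : Type) → Matroid α → Prop) (c : ℕ) : Prop :=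
  ∃ σ : Fml, σ.IsSentence ∧ σ.code = c ∧ ∀ (α : Type) (M : Matroid α), C α M → σ.Sat M (fun _ => ∅)

/-- The class of the finite `H`-gain-graphic matroids of rank `r`. -/
def GG (H : Type u) [Group H] (r : ℕ) (α : Type) (M : Matroid α) : Prop :=
  M.E.Finite ∧ M.eRank = r ∧ IsGainGraphic H M

theorem theory_not_re {C : (α : Type) → Matroid α → Prop} (hC : Rich.{u} C)
    (hfin : ∀ α M, C α M → M.E.Finite) : ¬ REPred (Theory C) := by
  refine hC.not_re _ (fun σ hσ h => ⟨σ, hσ, rfl, fun α M hM => h α M (hfin α M hM)⟩) ?_
  rintro σ hσ ⟨τ, hτ, hc, h⟩ α M hM _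
  obtain rfl := Fml.code_injective hc
  exact h α M hM

/-- For every infinite group `H` and every `r ≥ 3` the `MS_0` theory of the finite rank-`r`
`H`-gain-graphic matroids is undecidable, and it is not even recursively enumerable. More generally,
let `C` be a class of matroids such that for every `N` there are a group `H` with at least `N`
elements (possibly infinite) and `r ≥ 3` such that all finite `H`-gain-graphic matroids of rank `r`
are isomorphic to restrictions of finite members of `C`. Then for every recursively enumerable set
`S` there are sentences `σ n`, computable from `n`, such that `σ n` fails in a finite member of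
`C` if `n ∈ S`, and holds in every finite matroid if `n ∉ S`. -/
theorem result :
    (∀ (H : Type u) [Group H] [Infinite H] (r : ℕ), 3 ≤ r →
      (¬ ∃ f : ℕ →. Bool, Partrec f ∧ ∀ σ : Fml, σ.IsSentence →
        ∃ b : Bool, f σ.code = Part.some b ∧
          (b = true ↔ ∀ (α : Type) (M : Matroid α), GG H r α M → σ.Sat M (fun _ => ∅))) ∧
      ¬ REPred (Theory (GG H r))) ∧
    (∀ C : (α : Type) → Matroid α → Prop, Rich.{u} C → ∀ S : ℕ → Prop, REPred S →
      ∃ σ : ℕ → Fml, Computable (fun n => (σ n).code) ∧ (∀ n, (σ n).IsSentence) ∧
        (∀ n, S n → ∃ (α : Type) (M : Matroid α), C α M ∧ M.E.Finite ∧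
          ¬ (σ n).Sat M (fun _ => ∅)) ∧
        ∀ n, ¬ S n → ∀ (α : Type) (M : Matroid α), M.E.Finite → (σ n).Sat M (fun _ => ∅)) := by
  refine ⟨fun H _ _ r hr => ?_, fun C hC S hS => hC.reduction hS⟩
  have h : Rich.{u} (GG H r) := rich_rank H r hr
  exact ⟨h.undecidable fun α M hM => hM.1, theory_not_re h fun α M hM => hM.1⟩

end Pool.Agent.Results.MP_682a55_lc.AllRanksNotEnumerable
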