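import Pool.Agent.Results.MP_682a55_lc.InfiniteGroups
import Pool.Agent.Y669.TA.SysU

/-! `MS_0` theories of classes of finite matroids between the rank-3 gain-graphic matroids and all
finite matroids. Stronger form of `InfiniteGroups`. -/

set_option autoImplicit false

namespace Pool.Agent.Results.MP_682a55_lc.EveryClass

open Pool.Agent.H761R3.MS0 Pool.Agent.H761R3.Gain Pool.Agent.H761R3.Sys

universe u

/-- `M` is a finite matroid of rank 3 which is `H`-gain-graphic for all infinite groups `H`
simultaneously. -/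
def CommonGainGraphic {α : Type} (M : Matroid α) : Prop :=
  M.E.Finite ∧ M.eRank = 3 ∧ ∀ (H : Type u) [Group H] [Infinite H], IsGainGraphic H M

/-- The `MS_0` sentence `σ` holds in all members of the class `C` of matroids. -/
def TrueIn (C : (α : Type) → Matroid α → Prop) (σ : Fml) : Prop :=
  ∀ (α : Type) (M : Matroid α), C α M → σ.Sat M (fun _ => ∅)

/-- (1) For every recursively enumerable set `W` there is a computable function from the natural
numbers to (the Gödel numbers of) `MS_0` sentences `σ n` such that for `n` not in `W` the sentence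
`σ n` holds in all finite matroids, and for `n` in `W` it fails in a finite matroid of rank 3 which
is `H`-gain-graphic for every infinite group `H`.
(2) For every class `C` of finite matroids which contains all finite rank-3 matroids that are
`H`-gain-graphic for every infinite group `H`, the set of the `MS_0` sentences which hold in `C` is
not recursively enumerable, in particular the `MS_0` theory of `C` is undecidable.
(3) In particular, for every infinite group `H` the `MS_0` theory of the class of rank-3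
`H`-gain-graphic matroids is undecidable. -/
theorem result :
    (∀ W : ℕ → Prop, REPred W → ∃ σ : ℕ → Fml, (Computable fun n => (σ n).code) ∧
      ∀ n, (σ n).IsSentence ∧
        (¬ W n → TrueIn (fun _ M => M.E.Finite) (σ n)) ∧
        (W n → ∃ (α : Type) (M : Matroid α), CommonGainGraphic.{u} M ∧
          ¬ (σ n).Sat M (fun _ => ∅))) ∧
    (∀ C : (α : Type) → Matroid α → Prop, (∀ α M, C α M → M.E.Finite) →
      (∀ (α : Type) (M : Matroid α), CommonGainGraphic.{u} M → C α M) →
      ¬ ∃ E : ℕ → Prop, REPred E ∧ ∀ σ : Fml, σ.IsSentence → (E σ.code ↔ TrueIn C σ)) ∧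
    (∀ (H : Type u) [Group H] [Infinite H],
      ¬ ∃ f : ℕ →. Bool, Partrec f ∧ ∀ σ : Fml, σ.IsSentence →
        ∃ b : Bool, f σ.code = Part.some b ∧
          (b = true ↔ ∀ (α : Type) (M : Matroid α),
            (M.E.Finite ∧ M.eRank = 3 ∧ IsGainGraphic H M) → σ.Sat M (fun _ => ∅))) := by
  have key : ∀ W : ℕ → Prop, REPred W → ∃ σ : ℕ → Fml, (Computable fun n => (σ n).code) ∧
      ∀ n, (σ n).IsSentence ∧
        (¬ W n → TrueIn (fun _ M => M.E.Finite) (σ n)) ∧
        (W n → ∃ (α : Type) (M : Matroid α), CommonGainGraphic.{u} M ∧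
          ¬ (σ n).Sat M (fun _ => ∅)) := by
    intro W hW
    obtain ⟨k, L, σ, hk, hL, hx, hσ, hs, h⟩ := exists_sentences W hW
    refine ⟨σ, hσ, fun n => ⟨hs n, ?_, ?_⟩⟩
    · intro hn α M hM
      refine (h n α M hM).2 ?_
      rintro ⟨X, hX, h3, h4⟩
      obtain ⟨x, hx0, hxL⟩ := h4.sound hM hL
      exact hn ((hx n).2 ⟨x, hx0.trans h3, hxL⟩)
    · intro hn
      obtain ⟨x, hx0, hxL⟩ := (hx n).1 hn
      let m : ℕ := (∑ i ∈ Finset.range k, x i) + 2
      have hm : ∀ i < k, x i ≤ m := by
        intro i hi
        have := Finset.single_le_sum (f := x) (fun _ _ => Nat.zero_le _) (Finset.mem_range.2 hi)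
        change x i ≤ (∑ i ∈ Finset.range k, x i) + 2
        omega
      have h0 : 0 < m := Nat.succ_pos _
      have h1 : 1 < m := by
        change 1 < (∑ i ∈ Finset.range k, x i) + 2
        omega
      have : Nonempty (Fin m) := ⟨⟨0, h0⟩⟩
      have hfin : (El.mat (Fin m)).E.Finite := Set.toFinite _
      refine ⟨El (Fin m), El.mat (Fin m), ⟨hfin, ?_, ?_⟩, fun hs' => ?_⟩
      · exact mat_rank ⟨0, h0⟩ ⟨1, h1⟩ (by simp)
      · intro H _ _
        obtain ⟨g, h, hg⟩ := exists_gen H m
        exact mat_gainGraphic hg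
      · obtain ⟨X, hX, h3, h4⟩ := model k L x hL hk hxL m hm
        exact (h n _ _ hfin).1 hs' ⟨X, hX, h3.trans hx0, h4⟩
  refine ⟨key, ?_, fun H _ _ => Pool.Agent.Results.MP_682a55_lc.InfiniteGroups.result H⟩
  rintro C hfin hC ⟨E, hE, hEσ⟩
  obtain ⟨W, hW, hco⟩ := Pool.Agent.Y669.TA.SysU.exists_re_not_co
  obtain ⟨σ, hσ, h⟩ := key W hW
  apply hco
  have h1 : REPred fun n => E (σ n).code := Partrec.comp hE hσ
  refine h1.of_eq fun n => ?_
  rw [hEσ _ (h n).1]
  constructor
  · intro h2 hn
    obtain ⟨α, M, h3, h4⟩ := (h n).2.2 hn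
    exact h4 (h2 α M (hC α M h3))
  · intro hn α M hM
    exact (h n).2.1 hn α M (hfin α M hM)

end Pool.Agent.Results.MP_682a55_lc.EveryClass
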